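import Pool.Agent.H31.UF.Fin
import Pool.Agent.H31.GUF.All
import Pool.Agent.H39.LF.DEC
import Pool.Agent.H32.LF.Ent
import Pool.Agent.H66.LF.IND
import Pool.Agent.H63.UF.CBC
import Pool.Agent.H3.UF.CBD
import Pool.Agent.H3.UF.CBT
import Pool.Agent.H34.UF.CBE
import Pool.Agent.H18.UF.CBS
import Pool.Agent.H11.UF.CBU
import Pool.Agent.H55.UF.COP
import Pool.Agent.H14.UF.COZ
import Pool.Agent.H18.UF.CP
import Pool.Agent.H35.UF.DLF
import Pool.Agent.H55.UF.FIN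
import Pool.Agent.H68.UF.GPD
import Pool.Agent.H39.UF.LAM
import Pool.Agent.H54.UF.MUA
import Pool.Agent.H68.UF.PZ
import Pool.Agent.H59.UF.SHF
import Pool.Agent.H77.UF.UA
import Pool.Agent.H72.UF.UB
import Pool.Agent.H88.UF.UC
import Pool.Agent.H77.UF.UM
import Pool.Agent.H78.UF.WIN

/-!
Assembly of the project UF on `MP_c59857_nt`.
-/

set_option autoImplicit false

namespace Pool.Agent.H31.UF.All

open Pool.Agent.H31.UF
open Pool.Agent.H91.LF (StatementDEC StatementIND)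

theorem x_DEC : StatementDEC := Pool.Agent.H39.LF.dec_main Pool.Agent.H32.LF.ent_main

theorem x_COZ : T_COZ := Pool.Agent.H14.UF.pf_COZ Pool.Agent.H59.UF.pf_SHF

theorem x_COP : T_COP := Pool.Agent.H55.UF.pf_COP x_DEC Pool.Agent.H59.UF.pf_SHF
  Pool.Agent.H35.UF.pf_DLF Pool.Agent.H78.UF.pf_WIN

theorem x_COR : T_COR := pf_COR x_COZ x_COP

theorem x_PZ : T_PZ := Pool.Agent.H68.UF.pf_PZ x_COR

theorem x_CBS : T_CBS := Pool.Agent.H18.UF.pf_CBS x_PZ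

theorem x_CP : T_CP := Pool.Agent.H18.UF.pf_CP x_COR x_CBS Pool.Agent.H68.UF.pf_GPD
  Pool.Agent.H78.UF.pf_WIN

theorem x_CBC : T_CBC := Pool.Agent.H63.UF.pf_CBC

theorem x_CBT : T_CBT := Pool.Agent.H3.UF.pf_CBT

theorem x_UA : T_UA := Pool.Agent.H77.UF.pf_UA x_CBC x_CBT

theorem x_UB : T_UB := Pool.Agent.H72.UF.pf_UB x_CBC Pool.Agent.H3.UF.pf_CBD

theorem x_UC : T_UC := Pool.Agent.H88.UF.pf_UC x_CBC x_CBT Pool.Agent.H11.UF.pf_CBU
  Pool.Agent.H31.GUF.All.f_CH Pool.Agent.H31.GUF.All.f_AP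

theorem x_UM : T_UM := Pool.Agent.H77.UF.pf_UM x_CBC x_UA x_UB x_UC

theorem x_LAM : T_LAM := Pool.Agent.H39.UF.pf_LAM x_CP x_UM x_CBC

theorem x_FIN : T_FIN := Pool.Agent.H55.UF.pf_FIN x_LAM Pool.Agent.H54.UF.pf_MUA x_CBC
  Pool.Agent.H34.UF.pf_CBE Pool.Agent.H66.LF.ind_main

end Pool.Agent.H31.UF.All
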