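import Pool.Agent.H91.LF.Basic
import Pool.Agent.H91.LF.Defs3

/-!
Definitions for the project UF (Gowers uniformity along linear families of shifts) on
`MP_c59857_nt`.
-/

set_option autoImplicit false

open Finset Filter Topology

namespace Pool.Agent.H31.UF

open Pool.Agent.H91.LF

/-! ## Products over vertices, abstract form -/

/-- The linear form with coefficients `A`. -/
def lf {d : ℕ} (A ω : Fin d → ℤ) : ℤ := ∑ l, A l * ω l

section

variable {d r : ℕ} {S : Type} [Fintype S]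

open Classical in
/-- The product of `lz` at the values `A i s . ω + a i` of all forms `i` at all vertices `s`,
restricted to a residue class. -/
noncomputable def Fp (A : Fin r → S → Fin d → ℤ) (a : Fin r → ℤ) (W : ℕ) (c : Fin d → ℤ)
    (ω : Fin d → ℤ) : ℝ :=
  if ∀ i, ω i ≡ c i [ZMOD W] then ∏ i, ∏ s, lz (lf (A i s) ω + a i) else 0

open Classical in
/-- The same without the form `j`. -/
noncomputable def Hp (A : Fin r → S → Fin d → ℤ) (a : Fin r → ℤ) (W : ℕ) (c : Fin d → ℤ)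
    (j : Fin r) (ω : Fin d → ℤ) : ℝ :=
  if ∀ i, ω i ≡ c i [ZMOD W] then ∏ i ∈ Finset.univ.erase j, ∏ s, lz (lf (A i s) ω + a i) else 0

/-- The product of `lz` at the values `A s . ω + x` at all vertices. -/
noncomputable def Pv (A : S → Fin d → ℤ) (x : ℤ) (ω : Fin d → ℤ) : ℝ := ∏ s, lz (lf (A s) ω + x)

/-- The product of `lz` at the values `p (A s . ω) + x` at all vertices. -/
noncomputable def Bv (A : S → Fin d → ℤ) (p : ℕ) (x : ℤ) (ω : Fin d → ℤ) : ℝ :=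
  ∏ s, lz ((p : ℤ) * lf (A s) ω + x)

/-- The form `j` is independent of the others. -/
def IndA (A : Fin r → S → Fin d → ℤ) (a : Fin r → ℤ) (j : Fin r) (D : ℕ) (u : Fin d → ℤ)
    (C : ℤ) : Prop :=
  C ≠ 0 ∧ (∀ i, i ≠ j → ∀ s, (D : ℤ) * a i + lf (A i s) u = 0) ∧
    ∀ s, (D : ℤ) * a j + lf (A j s) u = C

/-- The translation by `e` adds `1` to all values. -/
def Dir (A : Fin r → S → Fin d → ℤ) (e : Fin d → ℤ) : Prop := ∀ i s, lf (A i s) e = 1

/-- The pairs of values of `lz` along the form `A` have mean at most zero over the vertices. -/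
def Gz (M : Mean d) (A : S → Fin d → ℤ) : Prop :=
  ∀ x s : ℤ, s ≠ 0 → M.E (fun ω => Pv A x ω * Pv A (x + s) ω) ≤ 0

/-- The data seen through the window. -/
noncomputable def xs (A : Fin r → S → Fin d → ℤ) (W : ℕ) (ω : Fin d → ℤ) :
    (Fin d → ZMod W) × (Fin r → S → SignType) :=
  (fun i => (ω i : ZMod W), fun i s => SignType.sign (lz (lf (A i s) ω)))

open Classical in
/-- The factor that depends on the class of the prime only. -/
noncomputable def Rp (A : Fin r → S → Fin d → ℤ) (a cc : Fin r → ℤ) (j : Fin r) (W : ℕ)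
    (z u e : Fin d → ℤ) (V : ℤ) (ρ s kr : ℕ) (ω : Fin d → ℤ) : ℝ :=
  if ∀ i, (ρ : ℤ) * ω i + (kr * u i + V * ρ * e i) ≡ z i [ZMOD W] then
    ∏ i ∈ Finset.univ.erase j, ∏ σ, lz (lf (A i σ) ω + (V + cc i - s * a i)) else 0

end

/-! ### Simple facts -/

section

variable {d r : ℕ} {S : Type} [Fintype S]

theorem lf_add (A ω ω' : Fin d → ℤ) : lf A (ω + ω') = lf A ω + lf A ω' := by
  simp [lf, mul_add, Finset.sum_add_distrib]

theorem lf_smul (A : Fin d → ℤ) (c : ℤ) (ω : Fin d → ℤ) : lf A (c • ω) = c * lf A ω := by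
  simp only [lf, Pi.smul_apply, smul_eq_mul, Finset.mul_sum]
  exact Finset.sum_congr rfl fun i _ => by ring

theorem lf_mul (A : Fin d → ℤ) (c : ℤ) (ω : Fin d → ℤ) : lf A (fun i => c * ω i) = c * lf A ω :=
  lf_smul A c ω

theorem lf_neg (A ω : Fin d → ℤ) : lf A (-ω) = - lf A ω := by
  simp [lf]

theorem abs_lf_le (A ω : Fin d → ℤ) (P : ℤ) (h : ∀ i, |ω i| ≤ P) : |lf A ω| ≤ P * ∑ l, |A l| := by
  unfold lf
  refine (Finset.abs_sum_le_sum_abs _ _).trans ?_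
  rw [Finset.mul_sum]
  refine Finset.sum_le_sum fun l _ => ?_
  rw [abs_mul, mul_comm P]
  exact mul_le_mul_of_nonneg_left (h l) (abs_nonneg _)

theorem abs_prod_le {ι : Type*} (s : Finset ι) (f : ι → ℝ) (h : ∀ i ∈ s, |f i| ≤ 1) :
    |∏ i ∈ s, f i| ≤ 1 := by
  rw [Finset.abs_prod]
  exact Finset.prod_le_one (fun i _ => abs_nonneg _) h

theorem abs_Fp_le (A : Fin r → S → Fin d → ℤ) (a : Fin r → ℤ) (W : ℕ) (c ω : Fin d → ℤ) :
    |Fp A a W c ω| ≤ 1 := by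
  unfold Fp
  split_ifs
  · exact abs_prod_le _ _ fun i _ => abs_prod_le _ _ fun s _ => abs_lz_le _
  · simp

theorem bdd_Fp (A : Fin r → S → Fin d → ℤ) (a : Fin r → ℤ) (W : ℕ) (c : Fin d → ℤ) :
    Bdd (Fp A a W c) := ⟨1, abs_Fp_le A a W c⟩

theorem abs_Hp_le (A : Fin r → S → Fin d → ℤ) (a : Fin r → ℤ) (W : ℕ) (c : Fin d → ℤ)
    (j : Fin r) (ω : Fin d → ℤ) : |Hp A a W c j ω| ≤ 1 := by
  unfold Hp
  split_ifs
  · exact abs_prod_le _ _ fun i _ => abs_prod_le _ _ fun s _ => abs_lz_le _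
  · simp

theorem bdd_Hp (A : Fin r → S → Fin d → ℤ) (a : Fin r → ℤ) (W : ℕ) (c : Fin d → ℤ)
    (j : Fin r) : Bdd (Hp A a W c j) := ⟨1, abs_Hp_le A a W c j⟩

theorem abs_Pv_le (A : S → Fin d → ℤ) (x : ℤ) (ω : Fin d → ℤ) : |Pv A x ω| ≤ 1 :=
  abs_prod_le _ _ fun _ _ => abs_lz_le _

theorem bdd_Pv (A : S → Fin d → ℤ) (x : ℤ) : Bdd (Pv A x) := ⟨1, abs_Pv_le A x⟩

theorem abs_Bv_le (A : S → Fin d → ℤ) (p : ℕ) (x : ℤ) (ω : Fin d → ℤ) : |Bv A p x ω| ≤ 1 :=
  abs_prod_le _ _ fun _ _ => abs_lz_le _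

theorem bdd_Bv (A : S → Fin d → ℤ) (p : ℕ) (x : ℤ) : Bdd (Bv A p x) := ⟨1, abs_Bv_le A p x⟩

theorem abs_Rp_le (A : Fin r → S → Fin d → ℤ) (a cc : Fin r → ℤ) (j : Fin r) (W : ℕ)
    (z u e : Fin d → ℤ) (V : ℤ) (ρ s kr : ℕ) (ω : Fin d → ℤ) :
    |Rp A a cc j W z u e V ρ s kr ω| ≤ 1 := by
  unfold Rp
  split_ifs
  · exact abs_prod_le _ _ fun i _ => abs_prod_le _ _ fun s _ => abs_lz_le _
  · simp

/-- An even number of signs cancels. -/
theorem prod_lz_mul (hS : Even (Fintype.card S)) {p : ℕ} (hp : p.Prime) (x : S → ℤ) :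
    ∏ s, lz ((p : ℤ) * x s) = ∏ s, lz (x s) := by
  have h1 : ∀ s, lz ((p : ℤ) * x s) = (-1) * lz (x s) := fun s => by
    rw [lz_prime_mul hp]
    ring
  rw [Finset.prod_congr rfl fun s _ => h1 s, Finset.prod_mul_distrib, Finset.prod_const,
    Finset.card_univ, hS.neg_one_pow, one_mul]

end

/-! ## Cubes and averages -/

/-- The vertex `s` of the cube `z = (n, h)`: the point `n + ∑_{i ∈ s} h i`. -/
def vx {k : ℕ} (z : Fin (k + 1) → ℤ) (s : Finset (Fin k)) : ℤ := z 0 + ∑ i ∈ s, z i.succ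

open Classical in
/-- The cubes of dimension `k` with all vertices in `[1, N]`. -/
noncomputable def CB (k N : ℕ) : Finset (Fin (k + 1) → ℤ) :=
  (Fintype.piFinset (fun _ => Finset.Icc (-(N : ℤ)) N)).filter
    (fun z => ∀ s, 1 ≤ vx z s ∧ vx z s ≤ N)

/-- The coefficients of the form `b` at the vertices of the cubes. -/
def cf {k m : ℕ} (b : Fin m → ℤ) (s : Finset (Fin k)) : Fin (k + 1 + m) → ℤ :=
  Fin.append (Fin.cons 1 (fun i => if i ∈ s then 1 else 0) : Fin (k + 1) → ℤ) b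

/-- The sums over `t ∈ [1, T] ^ m`, over the scales `N ∈ [x, y]` and over the cubes in `[1, N]`. -/
noncomputable def ak (k m T x y : ℕ) (f : (Fin (k + 1 + m) → ℤ) → ℝ) : ℝ :=
  ∑ t ∈ box m T, wt t * ∑ N ∈ Finset.Icc x y, (1 / (N : ℝ)) *
    ((∑ z ∈ CB k N, f (Fin.append z (fun l => (t l : ℤ)))) / (N : ℝ) ^ (k + 1))

/-- The averages. -/
noncomputable def av (k m T x y : ℕ) (f : (Fin (k + 1 + m) → ℤ) → ℝ) : ℝ :=
  ak k m T x y f / ak k m T x y (fun _ => 1)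

/-- Admissible sequences of ranges. -/
def Adm (T x y : ℕ → ℕ) : Prop :=
  Tendsto T atTop atTop ∧ (∀ j, 0 < x j) ∧
    Tendsto (fun j => Real.log ((y j : ℝ) / x j)) atTop atTop ∧
    Tendsto (fun j => Real.log (1 + (T j : ℝ) / x j) / Real.log ((y j : ℝ) / x j)) atTop (𝓝 0)

/-- The condition on the ranges `T`, `x`, `y` with the constant `K`. -/
def Rg (K T x y : ℕ) : Prop :=
  K ≤ T ∧ 0 < x ∧ K * x ≤ y ∧ ((T : ℝ) / x) ^ K ≤ (y : ℝ) / x

/-- The uniformity norm of `g` on `[1, N]`, to the power `2 ^ k`: the sum of the products of `g`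
over the vertices of the cubes in `[1, N]`, divided by `N ^ (k + 1)`. -/
noncomputable def gow (k N : ℕ) (g : ℤ → ℝ) : ℝ :=
  (∑ z ∈ CB k N, ∏ s, g (vx z s)) / (N : ℝ) ^ (k + 1)

end Pool.Agent.H31.UF
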