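import Pool.Agent.H31.UF.Targets

/-!
The final theorem of the project UF in explicit form.
-/

set_option autoImplicit false

open Finset

namespace Pool.Agent.H31.UF

open Pool.Agent.H91.LF

/-- The function of the problem on `[1, N]`, restricted to a residue class, at the parameters
`t`, `p`. -/
noncomputable def fn {m r : ℕ} (a : Fin r → ℤ) (b : Fin r → Fin m → ℤ) (c : Fin r → ℤ)
    (ε : Fin r → ℕ) (q n₀ N : ℕ) (t : Fin m → ℕ) (p : ℕ) (v : ℤ) : ℝ :=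
  if 1 ≤ v ∧ v ≤ N ∧ v ≡ n₀ [ZMOD q] then ∏ i, ((ArithmeticFunction.moebius
    ((v + (a i + ∑ l, b i l * (t l : ℤ) + c i * (p : ℤ))).toNat) : ℤ) : ℝ) ^ ε i else 0

/-- The `2 ^ k`-th power of the uniformity norm of order `k` on `[1, N]`: the sum of
`∏ f (n + ω . h)` over `n`, `h`, divided by `N ^ (k + 1)`; the subsets `ω` of `Fin k` stand for
the vertices of the cube. -/
noncomputable def gowers (k N : ℕ) (f : ℤ → ℝ) : ℝ :=
  (∑ n ∈ Finset.Icc (1 : ℤ) N, ∑ h ∈ Fintype.piFinset (fun _ : Fin k => Finset.Icc (-(N : ℤ)) N),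
    ∏ ω : Finset (Fin k), f (n + ∑ i ∈ ω, h i)) / (N : ℝ) ^ (k + 1)

theorem gow_eq {m r : ℕ} (k : ℕ) (a : Fin r → ℤ) (b : Fin r → Fin m → ℤ) (c : Fin r → ℤ)
    (ε : Fin r → ℕ) (q n₀ N : ℕ) (t : Fin m → ℕ) (p : ℕ) :
    gow k N (fu a b c ε q n₀ t p) = gowers k N (fn a b c ε q n₀ N t p) := by
  classical
  unfold gow gowers
  congr 1
  have h1 : ∀ z : Fin (k + 1) → ℤ, (∀ s, 1 ≤ vx z s ∧ vx z s ≤ N) →
      ∏ s, fu a b c ε q n₀ t p (vx z s) = ∏ s, fn a b c ε q n₀ N t p (vx z s) := by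
    intro z hz
    refine Finset.prod_congr rfl fun s _ => ?_
    unfold fu fn
    have := hz s
    by_cases h : vx z s ≡ n₀ [ZMOD q]
    · rw [if_pos h, if_pos ⟨this.1, this.2, h⟩]
    · rw [if_neg h, if_neg (fun h' => h h'.2.2)]
  have h2 : ∀ z : Fin (k + 1) → ℤ, ¬ (∀ s, 1 ≤ vx z s ∧ vx z s ≤ N) →
      ∏ s, fn a b c ε q n₀ N t p (vx z s) = 0 := by
    intro z hz
    rw [not_forall] at hz
    obtain ⟨s, hs⟩ := hz
    refine Finset.prod_eq_zero (Finset.mem_univ s) ?_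
    unfold fn
    rw [if_neg]
    exact fun h => hs ⟨h.1, h.2.1⟩
  have e1 : ∑ z ∈ CB k N, ∏ s, fu a b c ε q n₀ t p (vx z s) =
      ∑ z ∈ Fintype.piFinset (fun _ : Fin (k + 1) => Finset.Icc (-(N : ℤ)) N),
        ∏ s, fn a b c ε q n₀ N t p (vx z s) := by
    unfold CB
    rw [Finset.sum_filter]
    refine Finset.sum_congr rfl fun z _ => ?_
    split_ifs with h
    · exact h1 z h
    · exact (h2 z h).symm
  rw [e1]
  -- split off the base point
  have e2 : ∑ z ∈ Fintype.piFinset (fun _ : Fin (k + 1) => Finset.Icc (-(N : ℤ)) N),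
        ∏ s, fn a b c ε q n₀ N t p (vx z s) =
      ∑ x ∈ Finset.Icc (-(N : ℤ)) N ×ˢ
        Fintype.piFinset (fun _ : Fin k => Finset.Icc (-(N : ℤ)) N),
        ∏ s : Finset (Fin k), fn a b c ε q n₀ N t p (x.1 + ∑ i ∈ s, x.2 i) := by
    refine Finset.sum_bij' (fun z _ => (z 0, Fin.tail z)) (fun x _ => Fin.cons x.1 x.2)
      ?_ ?_ ?_ ?_ ?_
    · intro z hz
      rw [Fintype.mem_piFinset] at hz
      rw [Finset.mem_product, Fintype.mem_piFinset]
      exact ⟨hz 0, fun i => hz i.succ⟩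
    · intro x hx
      rw [Finset.mem_product, Fintype.mem_piFinset] at hx
      rw [Fintype.mem_piFinset]
      intro i
      refine Fin.cases ?_ (fun i => ?_) i
      · exact hx.1
      · exact hx.2 i
    · intro z _
      exact Fin.cons_self_tail z
    · intro x _
      rfl
    · intro z _
      rfl
  rw [e2, Finset.sum_product]
  have hsub : Finset.Icc (1 : ℤ) N ⊆ Finset.Icc (-(N : ℤ)) N := by
    intro x hx
    rw [Finset.mem_Icc] at hx ⊢
    omega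
  symm
  refine Finset.sum_subset hsub fun n _ hn => Finset.sum_eq_zero fun h _ => ?_
  refine Finset.prod_eq_zero (Finset.mem_univ (∅ : Finset (Fin k))) ?_
  unfold fn
  rw [if_neg]
  rw [Finset.sum_empty, add_zero]
  rintro ⟨h1, h2, _⟩
  exact hn (Finset.mem_Icc.2 ⟨h1, h2⟩)

open Classical in
/-- The final theorem in explicit form. -/
theorem fin_explicit (h : T_FIN) (k m r : ℕ) (a : Fin r → ℤ) (b : Fin r → Fin m → ℤ)
    (c : Fin r → ℤ) (ε : Fin r → ℕ) (q n₀ : ℕ) (j : Fin r) (hk : 1 ≤ k) (hε : ∀ i, 1 ≤ ε i)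
    (hj : Odd (ε j)) (hq : 0 < q)
    (hind : (Fin.cons 1 (Fin.cons (a j : ℚ) (fun l => (b j l : ℚ))) : Fin (m + 2) → ℚ) ∉
      Submodule.span ℚ {z | ∃ i, i ≠ j ∧ Odd (ε i) ∧
        z = (Fin.cons 1 (Fin.cons (a i : ℚ) (fun l => (b i l : ℚ))) : Fin (m + 2) → ℚ)})
    (ρ : ℝ) (hρ : 0 < ρ) :
    ∃ C : ℝ, ∀ P : ℕ, ∃ K : ℕ, ∀ T x y : ℕ, K ≤ T → 0 < x → K * x ≤ y →
      ((T : ℝ) / x) ^ K ≤ (y : ℝ) / x →
      ∑ p ∈ ((Finset.Icc 1 P).filter Nat.Prime).filter (fun p : ℕ =>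
        ρ * Real.log T ^ m * Real.log (y / x) <
          ∑ t ∈ Fintype.piFinset (fun _ : Fin m => Finset.Icc 1 T),
            (∏ l, (1 : ℝ) / t l) * ∑ N ∈ Finset.Icc x y,
              (1 / (N : ℝ)) * gowers k N (fn a b c ε q n₀ N t p)),
        (1 / (p : ℝ)) ≤ C := by
  obtain ⟨C, hC⟩ := h k m r a b c ε q n₀ j hk hε hj hq hind ρ hρ
  refine ⟨C, fun P => ?_⟩
  obtain ⟨K, hK⟩ := hC P
  refine ⟨K, fun T x y h1 h2 h3 h4 => ?_⟩
  have h5 := hK T x y h1 h2 h3 h4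
  simp only [gow_eq] at h5
  exact h5

end Pool.Agent.H31.UF
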