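import Pool.Agent.H31.UF.Defs
import Pool.Agent.H31.GUF.Targets

/-!
Statements of the modules of the project UF (Gowers uniformity along linear families of shifts)
on `MP_c59857_nt`.
-/

set_option autoImplicit false

open Finset Filter Topology

namespace Pool.Agent.H31.UF

open Pool.Agent.H91.LF
open Pool.Agent.H31.DP (Uc)

/-! ## The mean of the product vanishes -/

/-- [SHF] A translation isolates the form `j`. -/
def T_SHF : Prop :=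
  ∀ (d r : ℕ) (S : Type) [Fintype S] (A : Fin r → S → Fin d → ℤ) (a a' : Fin r → ℤ) (W : ℕ)
    (c u : Fin d → ℤ) (j : Fin r) (x : ℤ), (∀ i, (W : ℤ) ∣ u i) →
    (∀ i, i ≠ j → ∀ s, a' i + lf (A i s) u = a i) → (∀ s, a' j + lf (A j s) u = x) →
    ∀ ω, Fp A a' W c (ω + u) = Hp A a W c j ω * Pv (A j) x ω

open Classical in
/-- [DLF] The dilation identity. -/
def T_DLF : Prop :=
  ∀ (d r : ℕ) (S : Type) [Fintype S] (A : Fin r → S → Fin d → ℤ) (a : Fin r → ℤ) (W : ℕ)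
    (c : Fin d → ℤ) (M : Mean d) (p : ℕ), Dil M → Even (Fintype.card S) → p.Prime →
    (p : ℤ) ≡ 1 [ZMOD W] →
    M.E (fun ω => (p : ℝ) ^ d *
      if ∀ i, (p : ℤ) ∣ ω i then Fp A (fun i => (p : ℤ) * a i) W c ω else 0) = M.E (Fp A a W c)

/-- [WIN] The window lemma. -/
def T_WIN : Prop :=
  ∀ (d r : ℕ) (S : Type) [Fintype S] (A : Fin r → S → Fin d → ℤ) (a : Fin r → ℤ) (W n : ℕ)
    (c e κ : Fin d → ℤ), 0 < n → Dir A e →
    (∀ i s, 0 ≤ lf (A i s) κ + a i ∧ lf (A i s) κ + a i < n) → ∀ ω ω' : Fin d → ℤ,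
    (∀ j : ℕ, j < n → xs A W (ω + (j : ℤ) • e) = xs A W (ω' + (j : ℤ) • e)) →
    Fp A a W c (ω + κ) = Fp A a W c (ω' + κ)

/-- [COZ] The case `D = 0`. -/
def T_COZ : Prop :=
  ∀ (d r : ℕ) (S : Type) [Fintype S] (A : Fin r → S → Fin d → ℤ) (a : Fin r → ℤ) (W : ℕ)
    (c u : Fin d → ℤ) (j : Fin r) (C : ℤ) (M : Mean d), 0 < W → IndA A a j 0 u C →
    Gz M (A j) → M.E (Fp A a W c) = 0

/-- [COP] The case `D > 0`. -/
def T_COP : Prop :=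
  ∀ (d r : ℕ) (S : Type) [Fintype S] (A : Fin r → S → Fin d → ℤ) (a : Fin r → ℤ) (W : ℕ)
    (c u e : Fin d → ℤ) (j : Fin r) (D : ℕ) (C : ℤ) (M : Mean d), 0 < W → 0 < D →
    Even (Fintype.card S) → IndA A a j D u C → Dir A e → Dil M → Gz M (A j) →
    M.E (Fp A a W c) = 0

/-- [COR] The mean of the product vanishes. -/
def T_COR : Prop :=
  ∀ (d r : ℕ) (S : Type) [Fintype S] (A : Fin r → S → Fin d → ℤ) (a : Fin r → ℤ) (W : ℕ)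
    (c u e : Fin d → ℤ) (j : Fin r) (D : ℕ) (C : ℤ) (M : Mean d), 0 < W →
    Even (Fintype.card S) → IndA A a j D u C → Dir A e → Dil M → Gz M (A j) →
    M.E (Fp A a W c) = 0

theorem pf_COR (h1 : T_COZ) (h2 : T_COP) : T_COR := by
  intro d r S _ A a W c u e j D C M hW hS hI hD hM hG
  rcases Nat.eq_zero_or_pos D with h | h
  · subst h
    exact h1 d r S A a W c u j C M hW hI hG
  · exact h2 d r S A a W c u e j D C M hW h hS hI hD hM hG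

/-! ## Almost all primes -/

/-- [PZ] Two dilated products are orthogonal. -/
def T_PZ : Prop :=
  ∀ (d : ℕ) (S : Type) [Fintype S] (A : S → Fin d → ℤ) (M : Mean d) (e : Fin d → ℤ) (p q : ℕ)
    (X Y : ℤ), Even (Fintype.card S) → Dil M → Gz M A → (∀ s, lf (A s) e = 1) → p.Prime →
    q.Prime → p ≠ q → (q : ℤ) * X ≠ p * Y → M.E (fun ω => Bv A p X ω * Bv A q Y ω) = 0

/-- [CBS] The Bessel inequality for one residue class of primes. -/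
def T_CBS : Prop :=
  ∀ (d : ℕ) (S : Type) [Fintype S] (A : S → Fin d → ℤ) (M : Mean d) (e : Fin d → ℤ)
    (P : Finset ℕ) (X : ℕ → ℤ) (R : (Fin d → ℤ) → ℝ), Even (Fintype.card S) → Dil M → Gz M A →
    (∀ s, lf (A s) e = 1) → (∀ p ∈ P, p.Prime) →
    (∀ p ∈ P, ∀ q ∈ P, p ≠ q → (q : ℤ) * X p ≠ p * X q) → (∀ ω, |R ω| ≤ 1) →
    ∑ p ∈ P, (M.E (fun ω => R ω * Bv A p (X p) ω)) ^ 2 ≤ 1

/-- [GPD] The dilated product. -/
def T_GPD : Prop :=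
  ∀ (d r : ℕ) (S : Type) [Fintype S] (A : Fin r → S → Fin d → ℤ) (a cc : Fin r → ℤ) (j : Fin r)
    (W : ℕ) (z u e : Fin d → ℤ) (D : ℕ) (C V : ℤ) (p ρ s kp kr : ℕ), Even (Fintype.card S) →
    0 < D → p.Prime → IndA A a j D u C → Dir A e → D * kp = 1 + s * p → D * kr = 1 + s * ρ →
    p ≡ ρ [MOD D * W] → ∀ ω : Fin d → ℤ,
    Fp A (fun i => a i + cc i * (p : ℤ)) W z
      ((fun i => (p : ℤ) * ω i) + ((kp : ℤ) • u + (V * p) • e)) =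
      Rp A a cc j W z u e V ρ s kr ω *
        Bv (A j) p (V * p + cc j * p + a j + kp * (C - D * a j)) ω

/-- [CP] The mean level theorem for almost all primes. -/
def T_CP : Prop :=
  ∀ (d r : ℕ) (S : Type) [Fintype S] (A : Fin r → S → Fin d → ℤ) (a cc : Fin r → ℤ) (j : Fin r)
    (W : ℕ) (z u e : Fin d → ℤ) (D : ℕ) (C : ℤ), Even (Fintype.card S) → 0 < W →
    IndA A a j D u C → Dir A e → ∃ K : ℝ, ∀ (P : ℕ) (M : Mean d), Dil M → Gz M (A j) →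
      ∑ p ∈ primesLE P, (1 / (p : ℝ)) * (M.E (Fp A (fun i => a i + cc i * (p : ℤ)) W z)) ^ 2 ≤ K

/-! ## Cubes -/

/-- [CBC] Membership and the number of the cubes. -/
def T_CBC : Prop :=
  ∀ k : ℕ, (∀ (N : ℕ) (z : Fin (k + 1) → ℤ), z ∈ CB k N ↔ ∀ s, 1 ≤ vx z s ∧ vx z s ≤ N) ∧
    (∀ N : ℕ, ((CB k N).card : ℝ) ≤ 3 ^ k * (N : ℝ) ^ (k + 1)) ∧
    ∃ c : ℝ, 0 < c ∧ ∀ N : ℕ, c * (N : ℝ) ^ (k + 1) ≤ ((CB k N).card : ℝ)

/-- [CBT] Translations of the cubes. -/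
def T_CBT : Prop :=
  ∀ (k N : ℕ) (f : (Fin (k + 1) → ℤ) → ℝ) (F : ℝ), (∀ z, |f z| ≤ F) →
    (∀ τ : ℤ, |∑ z ∈ CB k N, f (z + Pi.single 0 τ) - ∑ z ∈ CB k N, f z| ≤
      2 * |(τ : ℝ)| * (2 * N + 1) ^ k * F) ∧
    ∀ i, |∑ z ∈ CB k N, f (z + Pi.single i 1) - ∑ z ∈ CB k N, f z| ≤
      2 ^ (k + 1) * (2 * N + 1) ^ k * F

open Classical in
/-- [CBD] Dilations of the cubes. -/
def T_CBD : Prop :=
  ∀ (k N p : ℕ) (f : (Fin (k + 1) → ℤ) → ℝ), 0 < p →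
    ∑ z ∈ CB k N, (if ∀ i, (p : ℤ) ∣ z i then f (fun i => z i / p) else 0) =
      ∑ z ∈ CB k (N / p), f z

/-- [CBE] Products over the vertices of two functions. -/
def T_CBE : Prop :=
  ∀ (k N : ℕ) (f g : ℤ → ℝ), (∀ n, |f n| ≤ 1) → (∀ n, |g n| ≤ 1) →
    |∑ z ∈ CB k N, (∏ s, f (vx z s) - ∏ s, g (vx z s))| ≤
      2 ^ k * (2 * N + 1) ^ k * ∑ n ∈ Finset.Icc (1 : ℤ) N, |f n - g n|

/-- [CBU] The cubes and the recursive definition. -/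
def T_CBU : Prop :=
  ∀ (k N : ℕ) (g : ℤ → ℝ),
    (Uc N k (Finset.Icc (1 : ℤ) N) (fun n => ((g n : ℝ) : ℂ))).re = ∑ z ∈ CB k N, ∏ s, g (vx z s)

/-! ## The averages -/

/-- [UA] Asymptotic translation invariance. -/
def T_UA : Prop :=
  ∀ (k m : ℕ) (T x y : ℕ → ℕ), Adm T x y →
    ∀ (v : Fin (k + 1 + m) → ℤ) (f : (Fin (k + 1 + m) → ℤ) → ℝ), Bdd f →
      Tendsto (fun j => av k m (T j) (x j) (y j) (fun ω => f (ω + v)) -
        av k m (T j) (x j) (y j) f) atTop (𝓝 0)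

open Classical in
/-- [UB] Asymptotic dilation invariance. -/
def T_UB : Prop :=
  ∀ (k m : ℕ) (T x y : ℕ → ℕ), Adm T x y →
    ∀ (p : ℕ), 0 < p → ∀ f : (Fin (k + 1 + m) → ℤ) → ℝ, Bdd f →
      Tendsto (fun j => av k m (T j) (x j) (y j)
          (fun ω => (p : ℝ) ^ (k + 1 + m) *
            if ∀ i, (p : ℤ) ∣ ω i then f (fun i => ω i / p) else 0) -
        av k m (T j) (x j) (y j) f) atTop (𝓝 0)

/-- [UC] The pairs are uniform along every form. -/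
def T_UC : Prop :=
  ∀ (k m : ℕ) (T x y : ℕ → ℕ), 1 ≤ k → Adm T x y → ∀ (b : Fin m → ℤ) (w s : ℤ) (η : ℝ),
    s ≠ 0 → 0 < η → ∀ᶠ j in atTop, av k m (T j) (x j) (y j)
      (fun ω => Pv (cf (k := k) b) w ω * Pv (cf (k := k) b) (w + s) ω) ≤ η

/-- [UM] The limit mean. -/
def T_UM : Prop :=
  ∀ (k m : ℕ) (T x y : ℕ → ℕ), 1 ≤ k → Adm T x y →
    ∃ M : Mean (k + 1 + m), Dil M ∧ (∀ b : Fin m → ℤ, Gz M (cf (k := k) b)) ∧
      ∀ (f : (Fin (k + 1 + m) → ℤ) → ℝ) (ρ : ℝ), Bdd f →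
        (∀ᶠ j in atTop, ρ ≤ av k m (T j) (x j) (y j) f) → ρ ≤ M.E f

open Classical in
/-- [LAM] The finitary theorem for the Liouville function in residue classes. -/
def T_LAM : Prop :=
  ∀ (k m r : ℕ) (a : Fin r → ℤ) (b : Fin r → Fin m → ℤ) (cc : Fin r → ℤ) (j : Fin r) (W : ℕ)
    (z : Fin (k + 1 + m) → ℤ), 1 ≤ k → 0 < W → Ind a b j → ∀ ρ : ℝ, 0 < ρ → ∃ C : ℝ, ∀ P : ℕ,
    ∃ K : ℕ, ∀ T x y : ℕ, Rg K T x y →
      ∑ p ∈ (primesLE P).filter (fun p : ℕ => ρ * Real.log T ^ m * Real.log (y / x) <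
        |ak k m T x y (Fp (fun i => cf (k := k) (b i)) (fun i => a i + cc i * (p : ℤ)) W z)|),
        (1 / (p : ℝ)) ≤ C

/-! ## The Möbius function -/

open Classical in
/-- [MUA] Approximation of the product of values of the Möbius function. -/
def T_MUA : Prop :=
  ∀ (r : ℕ) (η : ℝ), 0 < η → ∃ w : ℕ, ∀ (m : ℕ) (a : Fin r → ℤ) (b : Fin r → Fin m → ℤ)
    (ε : Fin r → ℕ), (∀ i, 1 ≤ ε i) → ∃ K : ℕ, ∀ T x y : ℕ, Rg K T x y → ∀ t ∈ box m T,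
      ∑ N ∈ Finset.Icc x y, (1 / (N : ℝ)) * ((∑ n ∈ Finset.Icc (1 : ℤ) N,
        |(∏ i, ((ArithmeticFunction.moebius
            ((n + (a i + ∑ l, b i l * (t l : ℤ))).toNat) : ℤ) : ℝ) ^ ε i) -
          (∏ i ∈ Finset.univ.filter (fun i => Odd (ε i)),
              lz (frm (a i) (b i) n (fun l => (t l : ℤ)))) *
            ∏ i, sqw w (frm (a i) (b i) n (fun l => (t l : ℤ)))|) / N) ≤
      η * Real.log (y / x)

/-- The function of the problem at the parameters `t` and `p`. -/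
noncomputable def fu {m r : ℕ} (a : Fin r → ℤ) (b : Fin r → Fin m → ℤ) (cc : Fin r → ℤ)
    (ε : Fin r → ℕ) (q n₀ : ℕ) (t : Fin m → ℕ) (p : ℕ) (n : ℤ) : ℝ :=
  if n ≡ n₀ [ZMOD q] then ∏ i, ((ArithmeticFunction.moebius
    ((n + (a i + ∑ l, b i l * (t l : ℤ) + cc i * (p : ℤ))).toNat) : ℤ) : ℝ) ^ ε i else 0

open Classical in
/-- [FIN] The final theorem. -/
def T_FIN : Prop :=
  ∀ (k m r : ℕ) (a : Fin r → ℤ) (b : Fin r → Fin m → ℤ) (cc : Fin r → ℤ) (ε : Fin r → ℕ)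
    (q n₀ : ℕ) (j : Fin r), 1 ≤ k → (∀ i, 1 ≤ ε i) → Odd (ε j) → 0 < q →
    (Fin.cons 1 (Fin.cons (a j : ℚ) (fun l => (b j l : ℚ))) : Fin (m + 2) → ℚ) ∉
      Submodule.span ℚ {z | ∃ i, i ≠ j ∧ Odd (ε i) ∧
        z = (Fin.cons 1 (Fin.cons (a i : ℚ) (fun l => (b i l : ℚ))) : Fin (m + 2) → ℚ)} →
    ∀ ρ : ℝ, 0 < ρ → ∃ C : ℝ, ∀ P : ℕ, ∃ K : ℕ, ∀ T x y : ℕ, K ≤ T → 0 < x → K * x ≤ y →
      ((T : ℝ) / x) ^ K ≤ (y : ℝ) / x →
      ∑ p ∈ ((Finset.Icc 1 P).filter Nat.Prime).filter (fun p : ℕ =>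
        ρ * Real.log T ^ m * Real.log (y / x) <
        ∑ t ∈ Fintype.piFinset (fun _ : Fin m => Finset.Icc 1 T),
          (∏ l, (1 : ℝ) / t l) * ∑ N ∈ Finset.Icc x y, (1 / (N : ℝ)) *
            gow k N (fu a b cc ε q n₀ t p)), (1 / (p : ℝ)) ≤ C

end Pool.Agent.H31.UF
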